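import Pool.Agent.N922.PQ.Stm
import Pool.Agent.N199.PP.GL
import Pool.Agent.N630.PP.GP
import Pool.Agent.N352.PP.Loc

/-!
# The local condition at places without points of order two

Project PQ (helper922), part GLR2 (helper7): a cocycle with values in the points of order two which
is locally trivial at a place where the cubic polynomial has no zero satisfies the local condition
in terms of polynomials. Adapted from `Pool.Agent.N199.PP.GL` and `Pool.Agent.N426.PM.GLR`.
-/

set_option autoImplicit false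
set_option linter.all false

open Polynomial IsDedekindDomain WeierstrassCurve WeierstrassCurve.Affine
open Pool.Agent.TH115.GD Pool.Agent.N874.PP Pool.Agent.N199.PP
open scoped Classical

namespace Pool.Agent.N7.PQ

open Pool.Agent.N630.PP Pool.Agent.N352.PP

/-- (GLR2) the local condition, from the identities for points of order two -/
theorem glr2' (h1 : S_GP1) (h2 : S_GP2) (h3 : S_GP3) (h4 : S_GP4) :
    Pool.Agent.N922.PQ.S_GLR2 := by
  intro M R _ _ _ _ _ A B h6' hD f hf hf2 β h hβ hh v hnr hloc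
  obtain ⟨ι, P, hP⟩ := hloc
  obtain ⟨Z, hZ3, hZ⟩ := exists_Z (Ω := Sep M) A B hD
  obtain ⟨ι', hι'⟩ : ∃ ι' : Sep M →ₐ[M] Sep (Comp R M v), ι' = ι.restrictScalars M := ⟨_, rfl⟩
  have hιx : ∀ x, ι x = ι' x := fun x => by rw [hι']; rfl
  simp only [hιx] at hP
  rw [← hι'] at hP
  have hres : ∀ τ : Sep (Comp R M v) ≃ₐ[Comp R M v] Sep (Comp R M v),
      ∃ σ : Sep M ≃ₐ[M] Sep M, ∀ x, τ (ι' x) = ι' (σ x) := fun τ => exists_res ι' τ
  -- the points of order two
  have hT2 : ∀ σ : Sep M ≃ₐ[M] Sep M, (2 : ℕ) • act (sW A B) ι' (f σ) = 0 := by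
    intro σ
    rw [← map_nsmul, hf2, map_zero]
  have hTP : ∀ (τ : Sep (Comp R M v) ≃ₐ[Comp R M v] Sep (Comp R M v))
      (σ : Sep M ≃ₐ[M] Sep M), (∀ x, τ (ι' x) = ι' (σ x)) →
      act (sW A B) (rs M τ) P = P + act (sW A B) ι' (f σ) := by
    intro τ σ hτσ
    rw [hP τ σ hτσ]
    abel
  -- the values of `h`
  have hval : ∀ t ∈ Z, eval (ι' t) ((h.map (algebraMap M (Comp R M v))).map
      (algebraMap (Comp R M v) (Sep (Comp R M v)))) = ι' (β t) ^ 2 := by
    intro t ht
    rw [Polynomial.map_map, ← IsScalarTower.algebraMap_eq, ← map_pow,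
      ← hh t ((mem_Z hZ t).1 ht), eval_map_algebraMap]
    exact aeval_algHom_apply ι' t h
  by_cases hPP : (2 : ℕ) • P = 0
  · -- the point is of order two
    left
    refine interp hZ hZ3 ι' hres (fun t => sg P (ι' t) * ι' (β t)) ?_
      (h.map (algebraMap M (Comp R M v))) ?_
    · intro τ σ hτσ t ht
      have hR := (mem_Z hZ t).1 ht
      have hR' : Rt A B (σ t) := Rt_map (σ : Sep M →ₐ[M] Sep M) hR
      have hR'' : Rt A B (ι' (σ t)) := Rt_map ι' hR'
      have e1 : τ (sg P (ι' t)) = sg (P + act (sW A B) ι' (f σ)) (ι' (σ t)) := by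
        rw [← hTP τ σ hτσ, ← hτσ]
        exact ((h4 M _ _ _ _ (rs M τ) P (ι' t)).1).symm
      have e2 : ∀ T : Pt (sW A B) (Sep (Comp R M v)),
          (2 : ℕ) • T = 0 → sg (P + T) (ι' (σ t)) = sg P (ι' (σ t)) * sg T (ι' (σ t)) := by
        intro T hT
        obtain ⟨a, b, c, hab, hac, hbc, hZe⟩ := Finset.card_eq_three.1 hZ3
        have ma := Rt_map ι' ((mem_Z hZ a).1 (by rw [hZe]; simp))
        have mb := Rt_map ι' ((mem_Z hZ b).1 (by rw [hZe]; simp))
        have mc := Rt_map ι' ((mem_Z hZ c).1 (by rw [hZe]; simp))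
        exact (h3 M _ _ _ h6' hD (ι' a) (ι' b) (ι' c) ma mb mc
          (fun e => hab (ι'.injective e)) (fun e => hac (ι'.injective e))
          (fun e => hbc (ι'.injective e))).2.1 P T _ hPP hT hR''
      have e3 : sg (act (sW A B) ι' (f σ)) (ι' (σ t)) =
          ι' (sg (f σ) (σ t)) := (h4 M _ _ _ _ ι' (f σ) (σ t)).1
      have e4 : τ (ι' (β t)) = ι' (sg (f σ) (σ t)) * ι' (β (σ t)) := by
        rw [hτσ, (hβ t hR).2 σ, map_mul]
      show τ (sg P (ι' t) * ι' (β t)) = sg P (ι' (σ t)) * ι' (β (σ t))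
      rw [map_mul, e1, e2 _ (hT2 σ), e3, e4]
      have e5 : ι' (sg (f σ) (σ t)) * ι' (sg (f σ) (σ t)) = 1 := by
        rw [← map_mul, sg_sq, map_one]
      linear_combination (sg P (ι' (σ t)) * ι' (β (σ t))) * e5
    · intro t ht
      rw [hval t ht]
      have e5 := sg_sq P (ι' t)
      linear_combination (-(ι' (β t)) ^ 2) * e5
  · -- the general case
    right
    obtain ⟨x, y, hxy, h2P, hrr⟩ := h1 M _ _ _ h6' hD P hPP
    obtain ⟨Q, hQ⟩ := fixed_point (K := M) (F := Comp R M v) (sW A B) ((2 : ℕ) • P) (by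
        intro τ
        obtain ⟨σ, hσ⟩ := hres τ
        rw [map_nsmul, hTP τ σ hσ, smul_add, hT2, add_zero])
    rcases Q with _ | ⟨x0, y0, hq⟩
    · exact absurd hQ.symm hPP
    have hy0 : y0 ≠ 0 := by
      rintro rfl
      have h5 := eq_of_nonsing hq
      apply hnr x0
      rw [zero_pow two_ne_zero] at h5
      exact h5.symm
    rw [h2P] at hQ
    have hx0 : algebraMap (Comp R M v) (Sep (Comp R M v)) x0 = x := (Point.some.inj hQ).1
    obtain ⟨H, hH⟩ : ∃ H : (Comp R M v)[X],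
      H = (C x0 - X) * h.map (algebraMap M (Comp R M v)) := ⟨_, rfl⟩
    suffices key : ∃ g : (Comp R M v)[X], cub (algebraMap M (Comp R M v) A)
        (algebraMap M (Comp R M v) B) ∣ H - g ^ 2 by
      rw [hH] at key
      exact ⟨x0, y0, hy0, eq_of_nonsing hq, key⟩
    refine interp hZ hZ3 ι' hres (fun t => rr (ι' t) P * ι' (β t)) ?_ H ?_
    · intro τ σ hτσ t ht
      have hR := (mem_Z hZ t).1 ht
      have hR' : Rt A B (σ t) := Rt_map (σ : Sep M →ₐ[M] Sep M) hR
      have hR'' : Rt A B (ι' (σ t)) := Rt_map ι' hR'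
      have e1 : τ (rr (ι' t) P) = rr (ι' (σ t)) (P + act (sW A B) ι' (f σ)) := by
        rw [← hTP τ σ hτσ, ← hτσ]
        exact ((h4 M _ _ _ _ (rs M τ) P (ι' t)).2).symm
      have e2 := h2 M _ _ _ h6' hD P _ hPP (hT2 σ) (ι' (σ t)) hR''
      have e3 : sg (act (sW A B) ι' (f σ)) (ι' (σ t)) =
          ι' (sg (f σ) (σ t)) := (h4 M _ _ _ _ ι' (f σ) (σ t)).1
      have e4 : τ (ι' (β t)) = ι' (sg (f σ) (σ t)) * ι' (β (σ t)) := by
        rw [hτσ, (hβ t hR).2 σ, map_mul]
      show τ (rr (ι' t) P * ι' (β t)) = rr (ι' (σ t)) P * ι' (β (σ t))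
      rw [map_mul, e1, e2, e3, e4]
      have e5 : ι' (sg (f σ) (σ t)) * ι' (sg (f σ) (σ t)) = 1 := by
        rw [← map_mul, sg_sq, map_one]
      linear_combination (rr (ι' (σ t)) P * ι' (β (σ t))) * e5
    · intro t ht
      rw [hH, Polynomial.map_mul, eval_mul, hval t ht, Polynomial.map_sub, map_C, map_X, eval_sub,
        eval_C, eval_X, hx0]
      have e5 := hrr (ι' t) (Rt_map ι' ((mem_Z hZ t).1 ht))
      linear_combination (-(ι' (β t)) ^ 2) * e5

/-- (GLR2) the local condition -/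
theorem glr2 : Pool.Agent.N922.PQ.S_GLR2 := glr2' gp1 gp2 gp3 gp4

end Pool.Agent.N7.PQ
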