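import Pool.Agent.N783.PQ.Cnt
import Pool.Agent.N783.PQ.Lat

/-!
# Project PQ (helper783): good polynomials have a squarefree discriminant

Leaf SQF (helper7): `sqf : S_NBR → S_LB → S_CHI → S_DSC → S_SQF`. Suppose that the square of the
prime `P` divides the discriminant of the polynomial `f` of the family. Then `f` is weakly divisible
by `P ^ 2`, the neighbour of `ℤ[θ]` at `P` is a unimodular lattice which contains `P` and in which
all rational integers are divisible by `P`; so it is distinguished modulo the primes of `S` and its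
rational integers are large, and `f` is bad.
-/

set_option autoImplicit false
set_option linter.all false

open Polynomial IsDedekindDomain Matrix NumberField
open scoped Classical

namespace Pool.Agent.N7.PQ

open Pool.Agent.N783.PQ
open Pool.Agent.N352.PJ (Mt Typ dd)

/-- Congruent polynomials have the same reduction. -/
theorem rd_eq_of_cg {q : ℕ} {f f' : ℤ[X]} (h : Cg q f f') : rd q f = rd q f' := by
  ext j
  rw [rd, rd, coeff_map, coeff_map, ← sub_eq_zero, ← map_sub]
  simpa using (ZMod.intCast_zmod_eq_zero_iff_dvd _ q).2 (h j)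

/-- The polynomial is irreducible over `ℤ`. -/
theorem irr_int {g B W : ℕ} {f₁ f : ℤ[X]} {S : Finset ℕ} {h : ℕ → ℤ[X]} (hG : GoodF g W f₁)
    (hF : Fam g B W f₁ S h f) : Irreducible f := by
  haveI : Fact (Nat.Prime 2) := ⟨Nat.prime_two⟩
  have h2 : Cg (2 : ℕ) f f₁ := by
    intro j
    obtain ⟨k, hk⟩ := hG.two
    refine dvd_trans ?_ (hF.one j)
    refine ⟨k, ?_⟩
    rw [hk]
    push_cast
    rfl
  have h3 : rd 2 f = rd 2 f₁ := rd_eq_of_cg h2
  refine Monic.irreducible_of_irreducible_map (Int.castRingHom (ZMod 2)) f hF.ht.mon ?_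
  have h4 := hG.irr
  rw [← h3] at h4
  exact h4

/-- The polynomial is irreducible over `ℚ`. -/
theorem irr_rat {g B W : ℕ} {f₁ f : ℤ[X]} {S : Finset ℕ} {h : ℕ → ℤ[X]} (hG : GoodF g W f₁)
    (hF : Fam g B W f₁ S h f) : Irreducible (f.map (Int.castRingHom ℚ)) :=
  (IsPrimitive.Int.irreducible_iff_irreducible_map_cast hF.ht.mon.isPrimitive).1 (irr_int hG hF)

/-- The field `ℚ[X] / (f)`. -/
theorem isGen_adjoinRoot {g : ℕ} {f : ℤ[X]} (hm : f.Monic) (hd : f.natDegree = 2 * g + 1)
    [hf : Fact (Irreducible (f.map (Int.castRingHom ℚ)))]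
    [NumberField (AdjoinRoot (f.map (Int.castRingHom ℚ)))] :
    IsGen g f (AdjoinRoot.root (f.map (Int.castRingHom ℚ))) where
  mon := hm
  deg := hd
  root := by
    have h := AdjoinRoot.eval₂_root (f.map (Int.castRingHom ℚ))
    rw [eval₂_map] at h
    rw [aeval_def]
    exact (congrArg (fun φ => eval₂ φ (AdjoinRoot.root (f.map (Int.castRingHom ℚ))) f)
      (RingHom.ext_int _ _)).trans h
  rank := by
    have hm' : (f.map (Int.castRingHom ℚ)).Monic := hm.map _
    have h1 := (AdjoinRoot.powerBasis hm'.ne_zero).finrank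
    rw [AdjoinRoot.powerBasis_dim, hm.natDegree_map, hd] at h1
    convert h1
  gen := by
    intro x
    have hm' : (f.map (Int.castRingHom ℚ)).Monic := hm.map _
    have hd' : (f.map (Int.castRingHom ℚ)).natDegree = 2 * g + 1 := by rw [hm.natDegree_map, hd]
    obtain ⟨p, rfl⟩ := AdjoinRoot.mk_surjective x
    have h1 : AdjoinRoot.mk (f.map (Int.castRingHom ℚ)) p =
        AdjoinRoot.mk (f.map (Int.castRingHom ℚ)) (p %ₘ f.map (Int.castRingHom ℚ)) := by
      rw [AdjoinRoot.mk_eq_mk, modByMonic_eq_sub_mul_div p (f.map (Int.castRingHom ℚ))]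
      rw [sub_sub_cancel]
      exact dvd_mul_right _ _
    have hlt : (p %ₘ f.map (Int.castRingHom ℚ)).natDegree < 2 * g + 1 := by
      rw [← hd']
      exact natDegree_modByMonic_lt p hm' (by
        intro h
        rw [h] at hd'
        simp at hd')
    refine ⟨fun i => (p %ₘ f.map (Int.castRingHom ℚ)).coeff i, ?_⟩
    rw [h1]
    conv_lhs => rw [(p %ₘ f.map (Int.castRingHom ℚ)).as_sum_range_C_mul_X_pow' hlt]
    rw [map_sum, Finset.sum_range]
    refine Finset.sum_congr rfl fun i _ => ?_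
    rw [map_mul, map_pow, AdjoinRoot.mk_X, AdjoinRoot.mk_C]
    congr 1

theorem top_pow {L : Type} [Field L] [NumberField L] {g : ℕ} {f : ℤ[X]} {θ : L}
    (hG : IsGen g f θ) {m : ℕ} (hm : m ≤ 2 * g) :
    hG.top (θ ^ m) = if m = 2 * g then 1 else 0 := by
  have h1 : θ ^ m = hG.basis ⟨m, by omega⟩ := (hG.basis_apply ⟨m, by omega⟩).symm
  rw [h1, IsGen.top, Module.Basis.coord_apply, Module.Basis.repr_self, Finsupp.single_apply]
  congr 1
  rw [eq_iff_iff, Fin.ext_iff]
  rfl

/-- The polynomials `X * h q` are separable modulo `q`. -/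
theorem sep_q {g W : ℕ} {S : Finset ℕ} {h : ℕ → ℤ[X]} (hg : 1 ≤ g) (hS : GoodS g W S h) {q : ℕ}
    (hq : q ∈ S) : (rd q (X * h q)).Separable := by
  obtain ⟨hp, -, -, -, hmon, hdeg, -, hirr⟩ := hS q hq
  haveI : Fact q.Prime := ⟨hp⟩
  have e : rd q (X * h q) = X * rd q (h q) := by
    rw [rd, Polynomial.map_mul, map_X]
  rw [e]
  refine separable_X.mul (PerfectField.separable_of_irreducible hirr) ?_
  rw [irreducible_X.coprime_iff_not_dvd]
  intro hd
  have h1 : Associated (X : (ZMod q)[X]) (rd q (h q)) := irreducible_X.associated_of_dvd hirr hd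
  have h2 := natDegree_eq_of_degree_eq (degree_eq_degree_of_associated h1)
  rw [natDegree_X, rd, hmon.natDegree_map, hdeg] at h2
  omega

theorem sqf (h1 : S_NBR) (h2 : S_LB) (h3 : S_CHI) (h4 : S_DSC) : S_SQF := by
  intro g hg
  obtain ⟨κ, hκ⟩ := h2 g hg
  refine ⟨κ, ?_⟩
  intro B N W f₁ S h f hGF hGS hF hBN hB hnb
  have h2dvd : ¬ ((2 : ℕ) : ℤ) ∣ dsc g f := by
    refine h4 g 2 f f₁ hg Nat.prime_two hF.ht.mon hF.ht.deg ?_ (hGF.sep 2 Nat.prime_two hGF.two)
    intro j
    obtain ⟨k, hk⟩ := hGF.two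
    refine dvd_trans ?_ (hF.one j)
    exact ⟨k, by rw [hk]; push_cast; rfl⟩
  rw [← Int.squarefree_natAbs, Nat.squarefree_iff_prime_squarefree]
  intro P hP hPd
  have hPd' : (P : ℤ) ^ 2 ∣ dsc g f := by
    rw [pow_two]
    exact_mod_cast Int.natCast_dvd.2 hPd
  have hP2 : P ≠ 2 := by
    rintro rfl
    exact h2dvd (dvd_trans (dvd_pow_self _ two_ne_zero) hPd')
  have hPq : ∀ q ∈ S, ¬ ((q : ℕ) : ℤ) ∣ (P : ℤ) := by
    intro q hq hqP
    have hqp := (hGS q hq).1
    have e : q = P := (Nat.prime_dvd_prime_iff_eq hqp hP).1 (by exact_mod_cast hqP)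
    have := h4 g q f (X * h q) hg hqp hF.ht.mon hF.ht.deg (hF.con q hq) (sep_q hg hGS hq)
    rw [e] at this
    exact this (dvd_trans (dvd_pow_self _ two_ne_zero) hPd')
  obtain ⟨hBP, hweak⟩ := hF.wk P hP hPd'
  haveI : Fact (Irreducible (f.map (Int.castRingHom ℚ))) := ⟨irr_rat hGF hF⟩
  haveI : FiniteDimensional ℚ (AdjoinRoot (f.map (Int.castRingHom ℚ))) :=
    (hF.ht.mon.map (Int.castRingHom ℚ)).finite_adjoinRoot
  haveI : CharZero (AdjoinRoot (f.map (Int.castRingHom ℚ))) :=
    charZero_of_injective_algebraMap (R := ℚ) (algebraMap ℚ _).injective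
  haveI : NumberField (AdjoinRoot (f.map (Int.castRingHom ℚ))) := { }
  have hG := isGen_adjoinRoot hF.ht.mon hF.ht.deg
  generalize AdjoinRoot.root (f.map (Int.castRingHom ℚ)) = θ at hG
  obtain ⟨e, A, A', hLat, ⟨v, hv⟩, hI⟩ := h1 g P _ f θ hg hP hP2 hG hweak
  obtain ⟨-, -, -, -, -, hform, -⟩ := h3 g _ f θ hG 1 e A A' one_ne_zero hLat
  apply hnb
  refine hκ _ f θ B N S h hG hF.ht hBN hF.con 1 e A A' one_ne_zero ?_ hLat ?_ (Or.inr ⟨rfl, ?_⟩)
  · rw [map_one]
    exact IsSquare.one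
  · intro q hq
    refine ⟨v, P, hPq q hq, ?_⟩
    intro m hm
    have h5 : ((form A A' m v : ℤ) : ℚ) = (if m = 2 * g then (P : ℚ) ^ 2 else 0) := by
      rw [hform, ← hv, div_one]
      have e1 : θ ^ m * ((P : ℕ) : AdjoinRoot (f.map (Int.castRingHom ℚ))) ^ 2 =
          ((P : ℚ) ^ 2) • θ ^ m := by
        rw [Algebra.smul_def, map_pow, map_natCast, mul_comm]
      rw [e1, map_smul, top_pow hG hm, smul_eq_mul]
      split_ifs <;> simp
    have h6 : form A A' m v = (if m = 2 * g then (P : ℤ) ^ 2 else 0) := by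
      have : ((form A A' m v : ℤ) : ℚ) = ((if m = 2 * g then (P : ℤ) ^ 2 else 0 : ℤ) : ℚ) := by
        rw [h5]
        split_ifs <;> simp
      exact_mod_cast this
    rw [h6, sub_self]
    exact dvd_zero _
  · intro j hj
    obtain ⟨k, hk⟩ := hI j hj
    by_cases hk0 : k = 0
    · left
      rw [hk, hk0, mul_zero]
    · right
      have h7 : (1 : ℤ) ≤ k ^ 2 := by
        have : 0 < k ^ 2 := by positivity
        omega
      have h8 : (B : ℤ) ≤ (P : ℤ) ^ 2 := by exact_mod_cast hBP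
      rw [hk, mul_pow]
      nlinarith [sq_nonneg (P : ℤ)]

end Pool.Agent.N7.PQ
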